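import Mathlib

/-! Littlewood polynomials without zeros near the unit circle: definitions. -/

namespace Pool.Agent.LZ

open Complex

/-- The coefficient: plus one on A, minus one outside. -/
noncomputable def sg (A : Finset ℕ) (k : ℕ) : ℂ := if k ∈ A then 1 else -1

/-- The Littlewood polynomial of degree n with coefficients sg A. -/
noncomputable def lp (n : ℕ) (A : Finset ℕ) (z : ℂ) : ℂ :=
  ∑ k ∈ Finset.range (n + 1), sg A k * z ^ k

/-- The first Q-th root of unity. -/
noncomputable def om (Q : ℕ) : ℂ := exp (2 * Real.pi * I / Q)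

/-- The local function at the i-th root of unity. -/
noncomputable def loc (n Q : ℕ) (A : Finset ℕ) (i : ℕ) (w : ℂ) : ℂ :=
  lp n A (om Q ^ i * (1 + w / n))

/-- The quantised coefficients. -/
noncomputable def qz (η : ℝ) (g : ℕ → ℂ) (m : ℕ) : ℤ × ℤ :=
  (round ((g m).re * 2 ^ (m + 2) / η), round ((g m).im * 2 ^ (m + 2) / η))

/-- The weight of an integer at place m. -/
noncomputable def vw (m : ℕ) (x : ℤ) : ℝ := if x = 0 then 1 else 1 / (2 ^ m * (x : ℝ) ^ 2)

/-- The number of subsets of a set of N points with at most l points. -/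
def Cb (N l : ℕ) : ℕ := ∑ i ∈ Finset.range (l + 1), N.choose i

end Pool.Agent.LZ
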