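import Pool.Agent.LZ.Defs

/-! Quantised Taylor coefficients: equal codes give near functions, and the size of the codes. -/

namespace Pool.Agent.LZ

open Complex

/-- Equal roundings are near. -/
theorem round_near {x y : ℝ} (h : round x = round y) : |x - y| ≤ 1 := by
  have h1 := abs_sub_round x
  have h2 := abs_sub_round y
  rw [← h] at h2
  rw [abs_le] at h1 h2 ⊢
  constructor <;> linarith [h1.1, h1.2, h2.1, h2.2]

/-- A nonzero rounding. -/
theorem round_size {x : ℝ} (h : round x ≠ 0) : 1 / 2 ≤ |x| ∧ |((round x : ℤ) : ℝ)| ≤ 2 * |x| := by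
  have h1 := abs_sub_round x
  have h2 : (1 : ℝ) ≤ |((round x : ℤ) : ℝ)| := by
    rw [← Int.cast_abs]
    exact_mod_cast Int.one_le_abs h
  have h3 : |((round x : ℤ) : ℝ)| ≤ |x| + 1 / 2 := by
    have h4 : ((round x : ℤ) : ℝ) = x - (x - (round x : ℤ)) := by ring
    calc |((round x : ℤ) : ℝ)| = |x - (x - (round x : ℤ))| := by rw [← h4]
      _ ≤ |x| + |x - (round x : ℤ)| := abs_sub _ _
      _ ≤ |x| + 1 / 2 := by linarith
  exact ⟨by linarith, by linarith⟩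

/-- The differences of coefficients with the same code. -/
theorem coef_near {g g' : ℕ → ℂ} {η : ℝ} (hη : 0 < η) {m : ℕ} (heq : qz η g m = qz η g' m) :
    ‖g' m - g m‖ ≤ η / 2 * (1 / 2) ^ m := by
  have h1 : round ((g m).re * 2 ^ (m + 2) / η) = round ((g' m).re * 2 ^ (m + 2) / η) :=
    congrArg Prod.fst heq
  have h2 : round ((g m).im * 2 ^ (m + 2) / η) = round ((g' m).im * 2 ^ (m + 2) / η) :=
    congrArg Prod.snd heq
  have h3 := round_near h1
  have h4 := round_near h2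
  have hp : (0 : ℝ) < 2 ^ (m + 2) / η := by positivity
  have key : ∀ x y : ℝ, |x * 2 ^ (m + 2) / η - y * 2 ^ (m + 2) / η| ≤ 1 →
      |y - x| ≤ η / 4 * (1 / 2) ^ m := by
    intro x y h
    have e : x * 2 ^ (m + 2) / η - y * 2 ^ (m + 2) / η = (x - y) * (2 ^ (m + 2) / η) := by ring
    rw [e, abs_mul, abs_of_pos hp, ← le_div_iff₀ hp, abs_sub_comm] at h
    refine h.trans (le_of_eq ?_)
    rw [div_pow, one_pow]
    field_simp
    ring
  have h5 := key _ _ h3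
  have h6 := key _ _ h4
  have h7 := Complex.norm_le_abs_re_add_abs_im (g' m - g m)
  rw [Complex.sub_re, Complex.sub_im] at h7
  linarith

/-- The series of a bounded sequence of coefficients. -/
theorem summ {g : ℕ → ℂ} {a : ℝ} (ha : ∀ m, ‖g m‖ ≤ 5 * a / 8 ^ m) {u : ℂ} (hu : ‖u‖ ≤ 1) :
    Summable (fun m => g m * u ^ m) := by
  have h1 : Summable (fun m : ℕ => 5 * a * (1 / 8 : ℝ) ^ m) :=
    (summable_geometric_of_lt_one (by norm_num) (by norm_num)).mul_left _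
  refine Summable.of_norm_bounded h1 fun m => ?_
  rw [norm_mul, norm_pow]
  have h2 : ‖u‖ ^ m ≤ 1 := pow_le_one₀ (norm_nonneg _) hu
  have h3 := ha m
  have h4 : 5 * a / 8 ^ m = 5 * a * (1 / 8 : ℝ) ^ m := by
    rw [div_pow, one_pow]
    ring
  rw [h4] at h3
  calc ‖g m‖ * ‖u‖ ^ m ≤ ‖g m‖ * 1 := mul_le_mul_of_nonneg_left h2 (norm_nonneg _)
    _ ≤ _ := by rw [mul_one]; exact h3

/-- L3a. Same code, near functions. -/
theorem quant_near {g g' : ℕ → ℂ} {a a' η : ℝ} (ha : ∀ m, ‖g m‖ ≤ 5 * a / 8 ^ m)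
    (ha' : ∀ m, ‖g' m‖ ≤ 5 * a' / 8 ^ m) (hη : 0 < η) (hη1 : η ≤ 1)
    (heq : ∀ m, qz η g m = qz η g' m) {u : ℂ} (hu : ‖u‖ ≤ 1) :
    ‖exp (∑' m, g m * u ^ m) - exp (∑' m, g' m * u ^ m)‖ ≤
      2 * η * ‖exp (∑' m, g m * u ^ m)‖ := by
  have s1 := summ ha hu
  have s2 := summ ha' hu
  set G := ∑' m, g m * u ^ m with hG
  set G' := ∑' m, g' m * u ^ m with hG'
  have h1 : G' - G = ∑' m, (g' m - g m) * u ^ m := by
    rw [hG, hG', ← s2.tsum_sub s1]
    refine tsum_congr fun m => ?_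
    ring
  have h2 : ‖G' - G‖ ≤ η := by
    rw [h1]
    have h3 : HasSum (fun m : ℕ => η / 2 * (1 / 2 : ℝ) ^ m) (η / 2 * 2) :=
      (hasSum_geometric_two).mul_left _
    have h4 := tsum_of_norm_bounded h3 (f := fun m => (g' m - g m) * u ^ m) (fun m => by
      rw [norm_mul, norm_pow]
      have h5 : ‖u‖ ^ m ≤ 1 := pow_le_one₀ (norm_nonneg _) hu
      calc ‖g' m - g m‖ * ‖u‖ ^ m ≤ ‖g' m - g m‖ * 1 :=
            mul_le_mul_of_nonneg_left h5 (norm_nonneg _)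
        _ ≤ _ := by rw [mul_one]; exact coef_near hη (heq m))
    linarith
  have h3 : ‖exp (G' - G) - 1‖ ≤ 2 * ‖G' - G‖ := Complex.norm_exp_sub_one_le (h2.trans hη1)
  have h4 : exp G - exp G' = - (exp G * (exp (G' - G) - 1)) := by
    rw [mul_sub, ← Complex.exp_add, mul_one]
    ring_nf
  rw [h4, norm_neg, norm_mul]
  have h5 := norm_nonneg (exp G)
  nlinarith

/-- One coordinate of L3b. -/
theorem coord_size {x a η : ℝ} (hη : 0 < η) (m : ℕ) (hx : |x| ≤ 5 * a / 8 ^ m)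
    (h : round (x * 2 ^ (m + 2) / η) ≠ 0) :
    (4 : ℝ) ^ m ≤ 40 * a / η ∧ |((round (x * 2 ^ (m + 2) / η) : ℤ) : ℝ)| ≤ 40 * a / η := by
  obtain ⟨h1, h2⟩ := round_size h
  have h3 : |x * 2 ^ (m + 2) / η| ≤ 20 * a / η / 4 ^ m := by
    rw [abs_div, abs_mul, abs_of_pos hη, abs_of_pos (by positivity : (0 : ℝ) < 2 ^ (m + 2))]
    calc |x| * 2 ^ (m + 2) / η ≤ 5 * a / 8 ^ m * 2 ^ (m + 2) / η := by gcongr
      _ = 20 * a / η / 4 ^ m := by
        have e : (8 : ℝ) ^ m = 2 ^ m * 4 ^ m := by rw [← mul_pow]; norm_num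
        rw [e, pow_add]
        field_simp
        ring
  have h4 : (0 : ℝ) < 4 ^ m := by positivity
  have h5 : 1 / 2 ≤ 20 * a / η / 4 ^ m := h1.trans h3
  rw [le_div_iff₀ h4] at h5
  have h6 : (4 : ℝ) ^ m ≤ 40 * a / η := by
    have : 40 * a / η = 2 * (20 * a / η) := by ring
    rw [this]
    linarith
  refine ⟨h6, h2.trans ?_⟩
  have h7 : (1 : ℝ) ≤ 4 ^ m := one_le_pow₀ (by norm_num)
  have h8 : 20 * a / η / 4 ^ m ≤ 20 * a / η := by
    refine div_le_self ?_ h7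
    linarith
  have : 40 * a / η = 2 * (20 * a / η) := by ring
  rw [this]
  linarith

/-- L3b. The size of the quantised coefficients. -/
theorem quant_size {g : ℕ → ℂ} {a η : ℝ} (ha1 : 1 ≤ a) (ha : ∀ m, ‖g m‖ ≤ 5 * a / 8 ^ m)
    (hη : 0 < η) (hη1 : η ≤ 1) (m : ℕ) :
    ((qz η g m).1 ≠ 0 → (4 : ℝ) ^ m ≤ 40 * a / η ∧ |((qz η g m).1 : ℝ)| ≤ 40 * a / η) ∧
    ((qz η g m).2 ≠ 0 → (4 : ℝ) ^ m ≤ 40 * a / η ∧ |((qz η g m).2 : ℝ)| ≤ 40 * a / η) :=
  ⟨fun h => coord_size hη m ((Complex.abs_re_le_norm _).trans (ha m)) h,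
    fun h => coord_size hη m ((Complex.abs_im_le_norm _).trans (ha m)) h⟩

end Pool.Agent.LZ
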